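import Pool.Agent.helper99.ZQ.Spec

set_option autoImplicit false
set_option linter.unusedVariables false

namespace Pool.Agent.ZQ

open Finset
open Pool.Agent.helper32.Cant
open Pool.Agent.GA (nrm chi ch St sg flp Psi rc ph pot rpot far nc gf ncs gfs good mj om pick pat et kap mult)
open Pool.Agent.ZR
open Pool.Agent.ZP
open scoped ENNReal

noncomputable section

/-- one piece of the set of the pairs -/
def FI4_pc (D : Set (ℝ × ℝ)) (o lam η : ℝ) : Set (ℝ × ℝ) :=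
  {p | (o ≤ p.1 ∧ p.1 < o + lam) ∧ (lam ≤ p.2 ∧ p.2 < lam * 2) ∧ ENNReal.ofReal η < cmu (Ln D p.1 p.2)}

theorem FI4_pos (a : ℝ≥0∞) (ha : a ≠ 0) : ∃ n : ℕ, ENNReal.ofReal (1 / ((n : ℝ) + 1)) < a := by
  have h0 : 0 < a := pos_iff_ne_zero.2 ha
  obtain ⟨r, hr0, hra⟩ := ENNReal.lt_iff_exists_nnreal_btwn.1 h0
  have hr : (0 : ℝ) < r := by
    have : (0 : NNReal) < r := by exact_mod_cast hr0
    exact_mod_cast this
  obtain ⟨n, hn⟩ := exists_nat_one_div_lt hr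
  refine ⟨n, lt_of_le_of_lt ?_ hra⟩
  calc ENNReal.ofReal (1 / ((n : ℝ) + 1)) ≤ ENNReal.ofReal (r : ℝ) := ENNReal.ofReal_le_ofReal hn.le
    _ = r := ENNReal.ofReal_coe_nnreal

theorem FI4 (hFN4 : FN4_stmt) (hGA2 : Pool.Agent.ZP.GA2_stmt) : FI4_stmt := by
  intro D hD
  have hsub : {p : ℝ × ℝ | 0 < p.2 ∧ cmu (Ln D p.1 p.2) ≠ 0} ⊆
      ⋃ i : ℕ, ⋃ l : ℤ, ⋃ m : ℤ, FI4_pc D ((m : ℝ) * (2 : ℝ) ^ l) ((2 : ℝ) ^ l) (1 / ((i : ℝ) + 1)) := by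
    intro p hp
    obtain ⟨l, hl⟩ := exists_mem_Ico_zpow hp.1 (one_lt_two (α := ℝ))
    obtain ⟨i, hi⟩ := FI4_pos _ hp.2
    have hlam : (0 : ℝ) < (2 : ℝ) ^ l := by positivity
    rw [Set.mem_iUnion]
    refine ⟨i, ?_⟩
    rw [Set.mem_iUnion]
    refine ⟨l, ?_⟩
    rw [Set.mem_iUnion]
    refine ⟨⌊p.1 / (2 : ℝ) ^ l⌋, ⟨?_, ?_⟩, ⟨hl.1, ?_⟩, hi⟩
    · have h1 := Int.floor_le (p.1 / (2 : ℝ) ^ l)
      rwa [le_div_iff₀ hlam] at h1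
    · have h1 := Int.lt_floor_add_one (p.1 / (2 : ℝ) ^ l)
      rw [div_lt_iff₀ hlam] at h1
      linarith
    · have h2 := hl.2
      rwa [zpow_add_one₀ (by norm_num : (2 : ℝ) ≠ 0)] at h2
  apply MeasureTheory.measure_mono_null hsub
  rw [MeasureTheory.measure_iUnion_null_iff]
  intro i
  rw [MeasureTheory.measure_iUnion_null_iff]
  intro l
  rw [MeasureTheory.measure_iUnion_null_iff]
  intro m
  have hlam : (0 : ℝ) < (2 : ℝ) ^ l := by positivity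
  have hη : (0 : ℝ) < 1 / ((i : ℝ) + 1) := by positivity
  apply hGA2 (10 ^ 14) (2 * 10 ^ 14) ((m : ℝ) * (2 : ℝ) ^ l) ((2 : ℝ) ^ l) (by norm_num) (by norm_num) hlam
  have hset : {p : ℝ × ℝ | ((m : ℝ) * (2 : ℝ) ^ l + (2 : ℝ) ^ l * p.1, (2 : ℝ) ^ l * (1 + p.2)) ∈
      FI4_pc D ((m : ℝ) * (2 : ℝ) ^ l) ((2 : ℝ) ^ l) (1 / ((i : ℝ) + 1))} =
      {p | 0 ≤ p.1 ∧ p.1 < 1 ∧ 0 ≤ p.2 ∧ p.2 < 1 ∧
        ENNReal.ofReal (1 / ((i : ℝ) + 1)) <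
          cmu (Ln D ((m : ℝ) * (2 : ℝ) ^ l + (2 : ℝ) ^ l * p.1) ((2 : ℝ) ^ l * (1 + p.2)))} := by
    ext p
    constructor
    · rintro ⟨⟨h1, h2⟩, ⟨h3, h4⟩, h5⟩
      simp only at h1 h2 h3 h4 h5
      refine ⟨?_, ?_, ?_, ?_, h5⟩
      · have := le_of_mul_le_mul_left (by linarith : (2 : ℝ) ^ l * 0 ≤ (2 : ℝ) ^ l * p.1) hlam
        exact this
      · have := lt_of_mul_lt_mul_left (by linarith : (2 : ℝ) ^ l * p.1 < (2 : ℝ) ^ l * 1) hlam.le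
        exact this
      · have := le_of_mul_le_mul_left (by linarith : (2 : ℝ) ^ l * 1 ≤ (2 : ℝ) ^ l * (1 + p.2)) hlam
        linarith
      · have := lt_of_mul_lt_mul_left h4 hlam.le
        linarith
    · rintro ⟨h1, h2, h3, h4, h5⟩
      refine ⟨⟨?_, ?_⟩, ⟨?_, ?_⟩, h5⟩
      · simp only
        nlinarith
      · simp only
        nlinarith
      · simp only
        nlinarith
      · simp only
        nlinarith
  rw [hset]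
  exact hFN4 D hD _ _ _ hlam hη

end

end Pool.Agent.ZQ
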